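import Mathlib
import Pool.Agent.Helper21.SR.St

/-! Project SR, module NUM: the explicit two variable inequality, by a verified cell check in the coordinates
`κ = (1-r)/(1+r)`, `p`. -/

namespace Pool.Agent.Helper61.SR

open Pool.Agent.Helper21.SR

/-- rational test of one cell -/
def tst (k0 k1 p0 p1 : ℚ) : Bool :=
  let t0 := 4*k0/((1+k0)*(1+k0))
  let y1 := 2*(1-p0*p0)/t0-1
  if y1 < 0 then true else
  let t1 := 4*k1/((1+k1)*(1+k1))
  let g := if y1 ≤ k1 then (1-y1)/2 else 1/2 - k1 + k1*k1/(2*y1)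
  let R := if 0 ≤ g then 1 - 8*g*g/(1+7*g/2) else 1
  let P := 1 - t0
  let em := if 1/3 ≤ p0 then (1+3*p0)/((1+p0)*(1+p0)) else if p1 ≤ 1/3 then (1+3*p1)/((1+p1)*(1+p1)) else 9/8
  let h := 10787/10000 + 9861/10000*p0 - 2497/10000*p0*p0 - em
  decide (0 ≤ h) && decide (R*(1+4*p1*p1/((1+p1)*(1+p1))) + 10787/10000 + 9861/10000*P - 2497/10000*P*P
    - 2*(1-p1)*h/t1 ≤ 1998/1000)

/-- recursive subdivision -/
def chk : ℕ → ℚ → ℚ → ℚ → ℚ → Bool
| 0, _, _, _, _ => false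
| n+1, k0, k1, p0, p1 => tst k0 k1 p0 p1 ||
    (if 2*(p1-p0)*k0 < (k1-k0)*(1-p0) then
      (chk n k0 ((k0+k1)/2) p0 p1 && chk n ((k0+k1)/2) k1 p0 p1)
    else (chk n k0 k1 p0 ((p0+p1)/2) && chk n k0 k1 ((p0+p1)/2) p1))

noncomputable def gm (k y : ℝ) : ℝ := if y ≤ k then (1-y)/2 else 1/2 - k + k*k/(2*y)
noncomputable def rho (g : ℝ) : ℝ := 1 - 8*g*g/(1+7*g/2)
noncomputable def ee (p : ℝ) : ℝ := (1+3*p)/((1+p)*(1+p))
noncomputable def Qh (P : ℝ) : ℝ := 10787/10000 + 9861/10000*P - 2497/10000*P*P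
noncomputable def tt (k : ℝ) : ℝ := 4*k/((1+k)*(1+k))
noncomputable def yy (k p : ℝ) : ℝ := 2*(1-p*p)/tt k - 1
noncomputable def FF (k p : ℝ) : ℝ :=
  rho (gm k (yy k p)) * (1+4*p*p/((1+p)*(1+p))) + Qh (1 - tt k) - 2*(1-p)*(Qh p - ee p)/tt k

private lemma tt_pos {k : ℝ} (hk : 0 < k) : 0 < tt k := by unfold tt; positivity

private lemma tt_mono {a b : ℝ} (ha : 0 < a) (hab : a ≤ b) (hb : b ≤ 1) : tt a ≤ tt b := by
  unfold tt
  have hb0 : 0 < b := ha.trans_le hab
  rw [div_le_div_iff₀ (by positivity) (by positivity)]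
  nlinarith [mul_nonneg (sub_nonneg.2 hab) (sub_nonneg.2 (show a*b ≤ 1 by nlinarith))]

private lemma tt_le_one {k : ℝ} (hk : 0 < k) : tt k ≤ 1 := by
  unfold tt
  rw [div_le_one (by positivity)]
  nlinarith [sq_nonneg (k-1)]

private lemma gm_anti_y {k a b : ℝ} (hk : 0 < k) (ha : 0 ≤ a) (hab : a ≤ b) : gm k b ≤ gm k a := by
  unfold gm
  split_ifs with h1 h2 h2
  · linarith
  · exact absurd (hab.trans h1) h2
  · -- k < b, a ≤ k : 1/2 - k + k^2/(2b) ≤ (1-a)/2
    push Not at h1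
    have hb : 0 < b := hk.trans h1
    have : k*k/(2*b) ≤ k/2 := by
      rw [div_le_div_iff₀ (by positivity) (by positivity)]
      nlinarith
    linarith
  · push Not at h1 h2
    have hb : 0 < a := hk.trans h2
    have : k*k/(2*b) ≤ k*k/(2*a) := by
      apply div_le_div_of_nonneg_left (by positivity) (by positivity) (by linarith)
    linarith

private lemma gm_anti_k {a b y : ℝ} (ha : 0 < a) (hab : a ≤ b) (hy : 0 ≤ y) : gm b y ≤ gm a y := by
  unfold gm
  split_ifs with h1 h2 h2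
  · exact le_rfl
  · push Not at h2
    have hy' : 0 < y := ha.trans h2
    have : y/2 ≥ a - a*a/(2*y) := by
      rw [ge_iff_le, sub_le_iff_le_add, ← sub_le_iff_le_add', le_div_iff₀ (by positivity)]
      nlinarith [sq_nonneg (y-a)]
    linarith
  · exact absurd (h2.trans hab) h1
  · push Not at h1 h2
    have hy' : 0 < y := ha.trans h2
    have : b*b/(2*y) - a*a/(2*y) ≤ b - a := by
      rw [← sub_div, div_le_iff₀ (by positivity)]
      nlinarith
    linarith

private lemma gm_le_half {k y : ℝ} (hk : 0 < k) (hy : 0 ≤ y) : gm k y ≤ 1/2 := by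
  have := gm_anti_y (k := k) (a := 0) (b := y) hk le_rfl hy
  have h2 : gm k 0 = 1/2 := by unfold gm; rw [if_pos hk.le]; norm_num
  linarith

/-- nonnegativity of `gm` on the domain -/
private lemma gm_nonneg {k p : ℝ} (hk : 0 < k) (hk1 : k ≤ 1) (hy : 0 ≤ yy k p) : 0 ≤ gm k (yy k p) := by
  have h1 : yy k p ≤ (1+k*k)/(2*k) := by
    unfold yy tt
    have : 2*(1-p*p)/(4*k/((1+k)*(1+k))) - 1 = (1-p*p)*((1+k)*(1+k))/(2*k) - 1 := by
      field_simp; ring
    rw [this, sub_le_iff_le_add, div_add_one (by positivity), div_le_div_iff₀ (by positivity) (by positivity)]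
    nlinarith [mul_nonneg (mul_self_nonneg p) (mul_nonneg (mul_self_nonneg (1+k)) hk.le)]
  refine le_trans ?_ (gm_anti_y hk hy h1)
  unfold gm
  split_ifs with hc
  · have : (1+k*k)/(2*k) ≤ 1 := hc.trans hk1
    linarith
  · have : k*k/(2*((1+k*k)/(2*k))) = k*k*k/(1+k*k) := by field_simp
    rw [this]
    have : 1/2 - k + k*k*k/(1+k*k) = (1-k)^2/(2*(1+k*k)) := by field_simp; ring
    rw [this]; positivity

private lemma rho_anti {a b : ℝ} (ha : 0 ≤ a) (hab : a ≤ b) : rho b ≤ rho a := by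
  unfold rho
  have : 8*a*a/(1+7*a/2) ≤ 8*b*b/(1+7*b/2) := by
    rw [div_le_div_iff₀ (by positivity) (by have : 0 ≤ b := ha.trans hab; positivity)]
    have hb : 0 ≤ b := ha.trans hab
    nlinarith [mul_nonneg (sub_nonneg.2 hab) (add_nonneg ha hb), mul_nonneg (mul_nonneg ha hb) (sub_nonneg.2 hab)]
  linarith

private lemma rho_le_one {a : ℝ} (ha : 0 ≤ a) : rho a ≤ 1 := by
  have := rho_anti le_rfl ha
  have h : rho 0 = 1 := by unfold rho; norm_num
  linarith

private lemma rho_nonneg {a : ℝ} (ha : 0 ≤ a) (ha' : a ≤ 1/2) : 0 ≤ rho a := by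
  have := rho_anti ha ha'
  have h : rho (1/2) = 3/11 := by unfold rho; norm_num
  linarith

private lemma ee_anti {x y : ℝ} (hx : 1/3 ≤ x) (hxy : x ≤ y) : ee y ≤ ee x := by
  unfold ee
  have hx0 : 0 < x := by linarith
  have hy0 : 0 < y := by linarith
  rw [div_le_div_iff₀ (by positivity) (by positivity)]
  have : 0 ≤ (y-x)*(-1+x+y+3*x*y) := mul_nonneg (by linarith) (by nlinarith)
  nlinarith

private lemma ee_mono {x y : ℝ} (hx : 0 ≤ x) (hxy : x ≤ y) (hy : y ≤ 1/3) : ee x ≤ ee y := by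
  unfold ee
  have h0 : 0 ≤ y := hx.trans hxy
  rw [div_le_div_iff₀ (by positivity) (by positivity)]
  have : 0 ≤ (y-x)*(1-x-y-3*x*y) := mul_nonneg (by linarith) (by nlinarith)
  nlinarith

private lemma ee_le {x : ℝ} (hx : 0 ≤ x) : ee x ≤ 9/8 := by
  unfold ee
  rw [div_le_div_iff₀ (by positivity) (by positivity)]
  nlinarith [sq_nonneg (1-3*x)]

private lemma Qh_mono {x y : ℝ} (hx : 0 ≤ x) (hxy : x ≤ y) (hy : y ≤ 1) : Qh x ≤ Qh y := by
  unfold Qh
  nlinarith [mul_nonneg (sub_nonneg.2 hxy) (show (0:ℝ) ≤ 2 - x - y by linarith)]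

private lemma aa_mono {x y : ℝ} (hx : 0 ≤ x) (hxy : x ≤ y) :
    4*x*x/((1+x)*(1+x)) ≤ 4*y*y/((1+y)*(1+y)) := by
  have h0 : 0 ≤ y := hx.trans hxy
  rw [div_le_div_iff₀ (by positivity) (by positivity)]
  have h1 : x*(1+y) ≤ y*(1+x) := by nlinarith
  have h2 : (x*(1+y))*(x*(1+y)) ≤ (y*(1+x))*(y*(1+x)) := mul_self_le_mul_self (by positivity) h1
  nlinarith

/-- one cell -/
private lemma cell {K0 K1 P0 P1 k p R E : ℝ} (h0 : 0 < K0) (h1 : K0 ≤ k) (h2 : k ≤ K1) (h3 : K1 ≤ 1)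
    (q0 : 0 ≤ P0) (q1 : P0 ≤ p) (q2 : p ≤ P1) (q3 : P1 ≤ 1) (hy : 0 ≤ yy k p)
    (hR0 : 0 ≤ R) (hR : rho (gm k (yy k p)) ≤ R)
    (hE : ee p ≤ E) (hE0 : 0 ≤ Qh P0 - E)
    (H : R*(1+4*P1*P1/((1+P1)*(1+P1))) + Qh (1 - tt K0) - 2*(1-P1)*(Qh P0 - E)/tt K1 ≤ 999/500) :
    FF k p ≤ 999/500 := by
  have hk : 0 < k := h0.trans_le h1
  have hk1 : k ≤ 1 := h2.trans h3
  have hp : 0 ≤ p := q0.trans q1
  have hp1 : p ≤ 1 := q2.trans q3
  have e1 : rho (gm k (yy k p)) * (1+4*p*p/((1+p)*(1+p))) ≤ R*(1+4*P1*P1/((1+P1)*(1+P1))) := by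
    have := aa_mono hp q2
    have h4 : 0 ≤ 4*p*p/((1+p)*(1+p)) := by positivity
    calc rho (gm k (yy k p)) * (1+4*p*p/((1+p)*(1+p))) ≤ R * (1+4*p*p/((1+p)*(1+p))) :=
          mul_le_mul_of_nonneg_right hR (by linarith)
      _ ≤ _ := mul_le_mul_of_nonneg_left (by linarith) hR0
  have e2 : Qh (1 - tt k) ≤ Qh (1 - tt K0) := by
    have := tt_mono h0 h1 hk1
    have := tt_le_one hk
    have := tt_pos h0
    exact Qh_mono (by linarith) (by linarith) (by linarith)
  have e3 : 2*(1-P1)*(Qh P0 - E)/tt K1 ≤ 2*(1-p)*(Qh p - ee p)/tt k := by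
    have a1 : Qh P0 - E ≤ Qh p - ee p := by
      have := Qh_mono q0 q1 hp1
      linarith
    have a2 := tt_mono hk h2 h3
    have a3 := tt_pos hk
    have a4 : 2*(1-P1)*(Qh P0 - E) ≤ 2*(1-p)*(Qh p - ee p) := by
      apply mul_le_mul (by linarith) a1 hE0 (by linarith)
    calc 2*(1-P1)*(Qh P0 - E)/tt K1 ≤ 2*(1-P1)*(Qh P0 - E)/tt k := by
          apply div_le_div_of_nonneg_left _ a3 a2
          exact mul_nonneg (by linarith) hE0
      _ ≤ _ := div_le_div_of_nonneg_right a4 a3.le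
  unfold FF
  linarith

private lemma yy_le {K0 P0 k p : ℝ} (h0 : 0 < K0) (h1 : K0 ≤ k) (h2 : k ≤ 1)
    (q0 : 0 ≤ P0) (q1 : P0 ≤ p) (hp1 : p ≤ 1) : yy k p ≤ yy K0 P0 := by
  unfold yy
  have a2 := tt_mono h0 h1 h2
  have a3 := tt_pos h0
  have a5 : p*p ≤ 1 := by nlinarith
  have a4 : 2*(1-p*p)/tt k ≤ 2*(1-P0*P0)/tt K0 := by
    calc 2*(1-p*p)/tt k ≤ 2*(1-p*p)/tt K0 := div_le_div_of_nonneg_left (by linarith) a3 a2
      _ ≤ _ := div_le_div_of_nonneg_right (by nlinarith) a3.le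
  linarith

private lemma tst_sound {k0 k1 p0 p1 : ℚ} (ht : tst k0 k1 p0 p1 = true) {k p : ℝ}
    (h0 : (0:ℝ) < (k0:ℝ)) (h1 : (k0:ℝ) ≤ k) (h2 : k ≤ (k1:ℝ)) (h3 : (k1:ℝ) ≤ 1)
    (q0 : (0:ℝ) ≤ (p0:ℝ)) (q1 : (p0:ℝ) ≤ p) (q2 : p ≤ (p1:ℝ)) (q3 : (p1:ℝ) ≤ 1) (hy : 0 ≤ yy k p) :
    FF k p ≤ 999/500 := by
  have hk : 0 < k := h0.trans_le h1
  have hk1 : k ≤ 1 := h2.trans h3
  have hp : 0 ≤ p := q0.trans q1
  have hp1 : p ≤ 1 := q2.trans q3
  have hyy := yy_le h0 h1 hk1 q0 q1 hp1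
  have hgn := gm_nonneg hk hk1 hy
  have hgm : gm k1 (yy k0 p0) ≤ gm k (yy k p) :=
    (gm_anti_k hk h2 (hy.trans hyy)).trans (gm_anti_y hk hy hyy)
  have hgh := gm_le_half (k := (k1:ℝ)) (hk.trans_le h2) (hy.trans hyy)
  unfold tst at ht
  simp only [] at ht
  split at ht
  · -- y1 < 0 impossible
    rename_i hlt
    have : yy k0 p0 < 0 := by
      unfold yy tt
      exact_mod_cast hlt
    linarith
  · set g : ℚ := (if 2*(1-p0*p0)/(4*k0/((1+k0)*(1+k0)))-1 ≤ k1 then (1-(2*(1-p0*p0)/(4*k0/((1+k0)*(1+k0)))-1))/2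
        else 1/2 - k1 + k1*k1/(2*(2*(1-p0*p0)/(4*k0/((1+k0)*(1+k0)))-1))) with hg
    have hgr : (g:ℝ) = gm k1 (yy k0 p0) := by
      rw [hg]
      unfold gm yy tt
      split_ifs with c1 c2 c2
      · push_cast; rfl
      · exact absurd (by exact_mod_cast c1) c2
      · exact absurd (by exact_mod_cast c2) c1
      · push_cast; rfl
    set R : ℚ := (if 0 ≤ g then 1 - 8*g*g/(1+7*g/2) else 1) with hR
    set em : ℚ := (if 1/3 ≤ p0 then (1+3*p0)/((1+p0)*(1+p0)) else if p1 ≤ 1/3 then (1+3*p1)/((1+p1)*(1+p1)) else 9/8)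
      with hem
    rw [Bool.and_eq_true, decide_eq_true_eq, decide_eq_true_eq] at ht
    obtain ⟨ha, hb⟩ := ht
    have hRr : rho (gm k (yy k p)) ≤ (R:ℝ) ∧ (0:ℝ) ≤ (R:ℝ) := by
      rw [hR]
      split_ifs with c
      · have c' : (0:ℝ) ≤ (g:ℝ) := by exact_mod_cast c
        have e : ((1 - 8*g*g/(1+7*g/2) : ℚ) : ℝ) = rho (g:ℝ) := by unfold rho; push_cast; rfl
        rw [e]
        exact ⟨rho_anti c' (by rw [hgr]; exact hgm), rho_nonneg c' (by rw [hgr]; exact hgh)⟩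
      · constructor
        · push_cast; exact rho_le_one hgn
        · push_cast; norm_num
    have hemr : ee p ≤ (em:ℝ) := by
      rw [hem]
      split_ifs with c1 c2
      · have c' : (1/3:ℝ) ≤ (p0:ℝ) := by
          have : ((1/3:ℚ):ℝ) ≤ (p0:ℝ) := by exact_mod_cast c1
          simpa using this
        have e : (((1+3*p0)/((1+p0)*(1+p0)) : ℚ) : ℝ) = ee (p0:ℝ) := by unfold ee; push_cast; rfl
        rw [e]; exact ee_anti c' q1
      · have c' : (p1:ℝ) ≤ (1/3:ℝ) := by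
          have : (p1:ℝ) ≤ ((1/3:ℚ):ℝ) := by exact_mod_cast c2
          simpa using this
        have e : (((1+3*p1)/((1+p1)*(1+p1)) : ℚ) : ℝ) = ee (p1:ℝ) := by unfold ee; push_cast; rfl
        rw [e]; exact ee_mono hp q2 c'
      · push_cast; exact ee_le hp
    refine cell (K0 := k0) (K1 := k1) (P0 := p0) (P1 := p1) (R := R) (E := em) h0 h1 h2 h3 q0 q1 q2 q3 hy
      hRr.2 hRr.1 hemr ?_ ?_
    · have : ((10787/10000 + 9861/10000*p0 - 2497/10000*p0*p0 - em : ℚ):ℝ) ≥ 0 := by exact_mod_cast ha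
      unfold Qh
      push_cast at this
      linarith
    · have hb' := (Rat.cast_le (K := ℝ)).2 hb
      push_cast at hb'
      unfold Qh tt
      norm_num at hb' ⊢
      linarith

private lemma chk_sound (n : ℕ) : ∀ {k0 k1 p0 p1 : ℚ}, chk n k0 k1 p0 p1 = true →
    (0:ℝ) < (k0:ℝ) → (k1:ℝ) ≤ 1 → (0:ℝ) ≤ (p0:ℝ) → (p1:ℝ) ≤ 1 → (k0:ℝ) ≤ k1 → (p0:ℝ) ≤ p1 →
    ∀ {k p : ℝ}, (k0:ℝ) ≤ k → k ≤ (k1:ℝ) → (p0:ℝ) ≤ p → p ≤ (p1:ℝ) → 0 ≤ yy k p → FF k p ≤ 999/500 := by
  induction n with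
  | zero => intro k0 k1 p0 p1 h; simp [chk] at h
  | succ n ih =>
    intro k0 k1 p0 p1 h a1 a2 a3 a4 a5 a6 k p b1 b2 b3 b4 hy
    rw [chk, Bool.or_eq_true] at h
    rcases h with h | h
    · exact tst_sound h a1 b1 b2 a2 a3 b3 b4 a4 hy
    · split at h
      · rw [Bool.and_eq_true] at h
        have e : (((k0+k1)/2 : ℚ):ℝ) = ((k0:ℝ)+k1)/2 := by push_cast; rfl
        rcases le_total k (((k0+k1)/2 : ℚ):ℝ) with c | c
        · exact ih h.1 a1 (by rw [e]; linarith) a3 a4 (by rw [e]; linarith) a6 b1 c b3 b4 hy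
        · exact ih h.2 (by rw [e]; linarith) a2 a3 a4 (by rw [e]; linarith) a6 c b2 b3 b4 hy
      · rw [Bool.and_eq_true] at h
        have e : (((p0+p1)/2 : ℚ):ℝ) = ((p0:ℝ)+p1)/2 := by push_cast; rfl
        rcases le_total p (((p0+p1)/2 : ℚ):ℝ) with c | c
        · exact ih h.1 a1 a2 a3 (by rw [e]; linarith) a5 (by rw [e]; linarith) b1 b2 b3 c hy
        · exact ih h.2 a1 a2 (by rw [e]; linarith) a4 a5 (by rw [e]; linarith) b1 b2 c b4 hy

set_option maxRecDepth 100000 in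
private theorem c7 : chk 20 (1/128) (1/64) 0 1 = true := by decide +kernel
set_option maxRecDepth 100000 in
private theorem c6 : chk 20 (1/64) (1/32) 0 1 = true := by decide +kernel
set_option maxRecDepth 100000 in
private theorem c5 : chk 20 (1/32) (1/16) 0 1 = true := by decide +kernel
set_option maxRecDepth 100000 in
private theorem c4 : chk 20 (1/16) (1/8) 0 1 = true := by decide +kernel
set_option maxRecDepth 100000 in
private theorem c3 : chk 20 (1/8) (1/4) 0 1 = true := by decide +kernel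
set_option maxRecDepth 100000 in
private theorem c2 : chk 20 (1/4) (1/2) 0 1 = true := by decide +kernel
set_option maxRecDepth 100000 in
private theorem c1 : chk 20 (1/2) 1 0 1 = true := by decide +kernel

private lemma big {k p : ℝ} (hk : 1/128 ≤ k) (hk1 : k ≤ 1) (hp : 0 ≤ p) (hp1 : p ≤ 1) (hy : 0 ≤ yy k p) :
    FF k p ≤ 999/500 := by
  have go : ∀ {a b : ℚ}, chk 20 a b 0 1 = true → (0:ℝ) < (a:ℝ) → (b:ℝ) ≤ 1 → (a:ℝ) ≤ b →
      (a:ℝ) ≤ k → k ≤ (b:ℝ) → FF k p ≤ 999/500 := by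
    intro a b h h1 h2 h3 h4 h5
    exact chk_sound 20 h h1 h2 (by norm_num) (by norm_num) h3 (by norm_num) h4 h5 (by simpa using hp)
      (by simpa using hp1) hy
  rcases le_total k (1/64) with h | h
  · exact go c7 (by norm_num) (by norm_num) (by norm_num) (by norm_num; linarith) (by norm_num; linarith)
  rcases le_total k (1/32) with h' | h'
  · exact go c6 (by norm_num) (by norm_num) (by norm_num) (by norm_num; linarith) (by norm_num; linarith)
  rcases le_total k (1/16) with h'' | h''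
  · exact go c5 (by norm_num) (by norm_num) (by norm_num) (by norm_num; linarith) (by norm_num; linarith)
  rcases le_total k (1/8) with h3 | h3
  · exact go c4 (by norm_num) (by norm_num) (by norm_num) (by norm_num; linarith) (by norm_num; linarith)
  rcases le_total k (1/4) with h4 | h4
  · exact go c3 (by norm_num) (by norm_num) (by norm_num) (by norm_num; linarith) (by norm_num; linarith)
  rcases le_total k (1/2) with h5 | h5
  · exact go c2 (by norm_num) (by norm_num) (by norm_num) (by norm_num; linarith) (by norm_num; linarith)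
  · exact go c1 (by norm_num) (by norm_num) (by norm_num) (by norm_num; linarith) (by norm_num; linarith)

/-- lower bounds for `h` -/
private lemma hh1 {p : ℝ} (hp : 0 ≤ p) (hp1 : p ≤ 1/3) : 1/25 ≤ Qh p - ee p := by
  have : ee p ≤ 1 + p := by
    unfold ee
    rw [div_le_iff₀ (by positivity)]
    nlinarith [mul_nonneg hp hp, mul_nonneg (mul_nonneg hp hp) hp]
  unfold Qh
  nlinarith

private lemma hh2 {p : ℝ} (hp : 1/3 ≤ p) (hp1 : p ≤ 1) : 1/4 ≤ Qh p - ee p := by
  have : ee p ≤ 9/8 := ee_le (by linarith)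
  have : Qh (1/3) ≤ Qh p := Qh_mono (by norm_num) hp hp1
  have e : Qh (1/3) = 10787/10000 + 9861/30000 - 2497/90000 := by unfold Qh; norm_num
  rw [e] at this
  linarith

private lemma corner {k p : ℝ} (hk0 : 0 < k) (hk : k ≤ 1/128) (hp : 0 ≤ p) (hp1 : p ≤ 1) (hy : 0 ≤ yy k p) :
    FF k p ≤ 999/500 := by
  have hg : 63/128 ≤ gm k (yy k p) := by
    unfold gm
    split_ifs with h
    · linarith
    · have : 0 ≤ k*k/(2*yy k p) := by positivity
      linarith
  have hr : rho (gm k (yy k p)) ≤ 289/1000 := by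
    have := rho_anti (by norm_num) hg
    have e : rho (63/128) ≤ 289/1000 := by unfold rho; norm_num
    linarith
  have ha : 4*p*p/((1+p)*(1+p)) ≤ 1 := by
    rw [div_le_one (by positivity)]
    nlinarith
  have ha0 : 0 ≤ 4*p*p/((1+p)*(1+p)) := by positivity
  have e1 : rho (gm k (yy k p)) * (1+4*p*p/((1+p)*(1+p))) ≤ 289/1000*2 := by
    calc _ ≤ 289/1000 * (1+4*p*p/((1+p)*(1+p))) := mul_le_mul_of_nonneg_right hr (by linarith)
      _ ≤ _ := mul_le_mul_of_nonneg_left (by linarith) (by norm_num)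
  have ht := tt_pos hk0
  have ht1 := tt_le_one hk0
  have e2 : Qh (1 - tt k) ≤ 18151/10000 := by
    have := Qh_mono (x := 1 - tt k) (y := 1) (by linarith) (by linarith) le_rfl
    have e : Qh 1 = 18151/10000 := by unfold Qh; norm_num
    linarith
  -- 2(1-p)h/t ≥ 0.3951
  have e3 : 3951/10000 ≤ 2*(1-p)*(Qh p - ee p)/tt k := by
    rw [le_div_iff₀ ht]
    have htk : tt k ≤ 1/32 := by
      unfold tt
      rw [div_le_iff₀ (by positivity)]
      nlinarith
    have hty : tt k ≤ 2*(1-p*p) := by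
      have : 0 ≤ 2*(1-p*p)/tt k - 1 := hy
      have h1 : 1 ≤ 2*(1-p*p)/tt k := by linarith
      rwa [le_div_iff₀ ht, one_mul] at h1
    rcases le_total p (1/3) with c | c
    · have := hh1 hp c
      nlinarith
    · have h2 := hh2 c hp1
      rcases le_total p (19/20) with d | d
      · nlinarith
      · -- h(p) ≥ 0.3951 (1+p)
        have h3 : 3951/10000*(1+p) ≤ Qh p - ee p := by
          have e4 : ee p ≤ ee (19/20) := ee_anti (by norm_num) d
          have e5 : ee (19/20) ≤ 10127/10000 := by unfold ee; norm_num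
          unfold Qh
          nlinarith
        calc 3951/10000 * tt k ≤ 3951/10000*(2*(1-p*p)) := by nlinarith
          _ = 2*(1-p)*(3951/10000*(1+p)) := by ring
          _ ≤ 2*(1-p)*(Qh p - ee p) := mul_le_mul_of_nonneg_left h3 (by linarith)
  unfold FF
  linarith

private lemma main {k p : ℝ} (hk0 : 0 < k) (hk1 : k ≤ 1) (hp : 0 ≤ p) (hp1 : p ≤ 1) (hy : 0 ≤ yy k p) :
    FF k p ≤ 999/500 := by
  rcases le_total k (1/128) with h | h
  · exact corner hk0 h hp hp1 hy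
  · exact big h hk1 hp hp1 hy

theorem hNUM : StNum := by
  intro p r hp hp1 hr hr1 hpr
  simp only []
  rcases eq_or_lt_of_le hr1 with h1 | h1
  · -- r = 1
    subst h1
    have hpsi : Psi 1 (p^2) = 1 := by
      unfold Psi
      have hp2 : p^2 ≤ 1 := by nlinarith
      rw [if_pos hp2]
      rcases eq_or_lt_of_le hp2 with h | h
      · rw [h]; norm_num
      · have h5 : (1 - p^2 : ℝ) ≠ 0 := by linarith
        have h6 : (1:ℝ) + 1^2 - 2*p^2 = 2*(1-p^2) := by ring
        rw [h6, show 2*(1-p^2)^2/(2*(1-p^2)) = 1 - p^2 by field_simp]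
        ring
    rw [hpsi]
    refine ⟨by norm_num, ?_⟩
    have : ee p = (1+3*p)/((1+p)*(1+p)) := rfl
    have hh : 0 ≤ (1-p)*(Qh p - ee p) := by
      apply mul_nonneg (by linarith)
      rcases le_total p (1/3) with c | c
      · have := hh1 hp c; linarith
      · have := hh2 c hp1; linarith
    have e : 2 - 2*(2*p/(1+p))^2 = 2*((1-p)*ee p) := by
      unfold ee; field_simp; ring
    have e2 : Qc p = (1-p)*Qh p := by unfold Qc Qh; ring
    have e3 : Qc (1^2) = 0 := by unfold Qc; norm_num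
    rw [e3, e2]
    norm_num
    nlinarith
  · have ht : 0 < 1 - r^2 := by nlinarith
    set k : ℝ := (1-r)/(1+r) with hk
    have hk0 : 0 < k := div_pos (by linarith) (by linarith)
    have hk1 : k ≤ 1 := by rw [hk, div_le_one (by linarith)]; linarith
    have htt : tt k = 1 - r^2 := by
      rw [hk]; unfold tt
      have : 1 + (1-r)/(1+r) = 2/(1+r) := by field_simp; ring
      rw [this]; field_simp; ring
    have hyy : yy k p = (1 + r^2 - 2*p^2)/(1-r^2) := by
      unfold yy; rw [htt]; field_simp; ring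
    have hD : 0 ≤ 1 + r^2 - 2*p^2 := by linarith
    have hy : 0 ≤ yy k p := by rw [hyy]; exact div_nonneg hD ht.le
    have hg : Psi r (p^2) - r^2 = (1-r^2) * gm k (yy k p) := by
      unfold Psi gm
      rw [hyy]
      by_cases c : p^2 ≤ r
      · rw [if_pos c]
        have hDp : 0 < 1 + r^2 - 2*p^2 := by nlinarith [sq_nonneg (1-r)]
        have hkD : k*(1-r^2) = (1-r)^2 := by rw [hk]; field_simp; ring
        by_cases d : (1 + r^2 - 2*p^2)/(1-r^2) ≤ k
        · rw [if_pos d]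
          rw [div_le_iff₀ ht, hkD] at d
          have : p^2 = r := by nlinarith
          rw [this]
          have h2 : 1 + r^2 - 2*r ≠ 0 := by nlinarith
          field_simp
          ring
        · rw [if_neg d]
          have h3 : 1 + r^2 - 2*p^2 ≠ 0 := hDp.ne'
          have h4 : 1 - r^2 ≠ 0 := ht.ne'
          have hkE : k*(1-r^2) = (1-r)^2 := hkD
          obtain ⟨D, hDd⟩ : ∃ D, D = 1 + r^2 - 2*p^2 := ⟨_, rfl⟩
          have hp2 : p^2 = (1+r^2-D)/2 := by linarith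
          rw [← hDd] at h3
          rw [← hDd, hp2]
          have e1 : (1-r^2)*(1/2 - k + k*k/(2*(D/(1-r^2)))) = (1-r^2)/2 - k*(1-r^2) + (k*(1-r^2))^2/(2*D) := by
            field_simp
          rw [e1, hkE]
          field_simp
          ring
      · rw [if_neg c]
        push Not at c
        have hkD : k*(1-r^2) = (1-r)^2 := by rw [hk]; field_simp; ring
        have d : (1 + r^2 - 2*p^2)/(1-r^2) ≤ k := by
          rw [div_le_iff₀ ht, hkD]; nlinarith
        rw [if_pos d]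
        field_simp
        ring
    have hgn := gm_nonneg hk0 hk1 hy
    have hF := main hk0 hk1 hp hp1 hy
    rw [hg]
    set γ := gm k (yy k p) with hγ
    refine ⟨mul_nonneg ht.le hgn, ?_⟩
    have hb : r^2 + 8*((1-r^2)*γ)^2/((1-r^2) + 7*((1-r^2)*γ)/2) = 1 - (1-r^2)*rho γ := by
      unfold rho
      have h5 : 1 + 7*γ/2 ≠ 0 := by positivity
      have h6 : (1-r^2) + 7*((1-r^2)*γ)/2 = (1-r^2)*(1+7*γ/2) := by ring
      rw [h6]
      field_simp
      ring
    rw [hb]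
    have key : 3 - (2*p/(1+p))^2 - (1 - (1-r^2)*rho γ) - (2*p/(1+p))^2*(1 - (1-r^2)*rho γ) + Qc (r^2) - 2*Qc p
        = (1-r^2)*FF k p := by
      unfold FF
      rw [← hγ, htt]
      unfold Qc Qh ee
      field_simp
      ring
    rw [key]
    nlinarith

end Pool.Agent.Helper61.SR
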