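import Pool.Agent.Helper5.SR.St3

/-!
# Module FOU of project SR: an analytic function with given real part and small derivative
-/

set_option autoImplicit false

namespace Pool.Agent.Helper61.SR.Fou

open Complex MeasureTheory Set Metric Filter Topology
open scoped Real ComplexConjugate
open Helper5.SR Pool.Agent.Helper51.LT

/-- derivatives vanish where the function does (outside a window) -/
theorem deriv_zero {v : ℝ → ℝ} {θ δ : ℝ} (hv : Differentiable ℝ v) (hδ : 0 < δ)
    (h : ∀ t, δ ≤ |t - θ| → v t = 0) : ∀ t, δ ≤ |t - θ| → deriv v t = 0 := by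
  intro t ht
  have hd : HasDerivAt v (deriv v t) t := (hv t).hasDerivAt
  rcases le_total θ t with h1 | h1
  · rw [abs_of_nonneg (by linarith)] at ht
    have h2 : HasDerivWithinAt v 0 (Ici t) t := by
      apply (hasDerivWithinAt_const t (Ici t) (0 : ℝ)).congr
      · intro s hs
        apply h
        rw [mem_Ici] at hs
        rw [abs_of_nonneg (by linarith)]
        linarith
      · apply h
        rw [abs_of_nonneg (by linarith)]
        exact ht
    exact (uniqueDiffOn_Ici t t self_mem_Ici).eq_deriv _ hd.hasDerivWithinAt h2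
  · rw [abs_of_nonpos (by linarith)] at ht
    have h2 : HasDerivWithinAt v 0 (Iic t) t := by
      apply (hasDerivWithinAt_const t (Iic t) (0 : ℝ)).congr
      · intro s hs
        apply h
        rw [mem_Iic] at hs
        rw [abs_of_nonpos (by linarith)]
        linarith
      · apply h
        rw [abs_of_nonpos (by linarith)]
        exact ht
    exact (uniqueDiffOn_Iic t t self_mem_Iic).eq_deriv _ hd.hasDerivWithinAt h2

theorem hab (θ : ℝ) : θ - π < θ + π := by have := Real.pi_pos; linarith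

/-- the coefficients -/
noncomputable def Co (θ : ℝ) (v : ℝ → ℝ) (n : ℤ) : ℂ := fourierCoeffOn (hab θ) (fun t => (v t : ℂ)) n

/-- size of a coefficient -/
theorem Co_bound {θ δ M : ℝ} {v : ℝ → ℝ} (hv : Continuous v) (hδ : 0 < δ) (hδ1 : δ ≤ 1)
    (h0 : ∀ t, δ ≤ |t - θ| → v t = 0) (hM : ∀ t, |v t| ≤ M) (n : ℤ) :
    ‖Co θ v n‖ ≤ M * δ / π := by
  have hpi := Real.pi_pos
  have hpi3 := Real.pi_gt_three
  rw [Co, fourierCoeffOn_eq_integral]
  set F : ℝ → ℂ := fun x => fourier (-n) (x : AddCircle (θ + π - (θ - π))) • (v x : ℂ) with hF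
  have hFc : Continuous F := by
    have h1 : Continuous (fun x : ℝ => fourier (-n) (x : AddCircle (θ + π - (θ - π)))) :=
      (fourier (-n)).continuous.comp (AddCircle.continuous_mk' _)
    have h2 : Continuous (fun x : ℝ => (v x : ℂ)) := continuous_ofReal.comp hv
    exact h1.smul h2
  have hFi : ∀ a b : ℝ, IntervalIntegrable F volume a b := fun a b => hFc.intervalIntegrable a b
  have hF0 : ∀ t, δ ≤ |t - θ| → F t = 0 := by
    intro t ht
    rw [hF]
    simp only
    rw [h0 t ht, ofReal_zero, smul_zero]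
  have hFn : ∀ t, ‖F t‖ ≤ M := by
    intro t
    rw [hF]
    simp only
    rw [norm_smul, Complex.norm_real, Real.norm_eq_abs]
    have : ‖fourier (-n) (t : AddCircle (θ + π - (θ - π)))‖ = 1 := by
      rw [fourier_apply, Circle.norm_coe]
    rw [this, one_mul]
    exact hM t
  have e1 : ∫ x in (θ - π)..(θ + π), F x = ∫ x in (θ - δ)..(θ + δ), F x := by
    rw [← intervalIntegral.integral_add_adjacent_intervals (hFi (θ - π) (θ - δ)) (hFi (θ - δ) (θ + π)),
      ← intervalIntegral.integral_add_adjacent_intervals (hFi (θ - δ) (θ + δ)) (hFi (θ + δ) (θ + π))]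
    have z1 : ∫ x in (θ - π)..(θ - δ), F x = 0 := by
      rw [intervalIntegral.integral_congr (g := fun _ => (0 : ℂ))]
      · simp
      · intro t ht
        rw [uIcc_of_le (by linarith)] at ht
        apply hF0
        rw [abs_of_nonpos (by linarith [ht.2])]
        linarith [ht.2]
    have z2 : ∫ x in (θ + δ)..(θ + π), F x = 0 := by
      rw [intervalIntegral.integral_congr (g := fun _ => (0 : ℂ))]
      · simp
      · intro t ht
        rw [uIcc_of_le (by linarith)] at ht
        apply hF0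
        rw [abs_of_nonneg (by linarith [ht.1])]
        linarith [ht.1]
    rw [z1, z2, zero_add, add_zero]
  rw [e1, norm_smul]
  have h1 : ‖∫ x in (θ - δ)..(θ + δ), F x‖ ≤ M * |θ + δ - (θ - δ)| :=
    intervalIntegral.norm_integral_le_of_norm_le_const (fun x _ => hFn x)
  have e2 : |θ + δ - (θ - δ)| = 2 * δ := by
    rw [show θ + δ - (θ - δ) = 2 * δ by ring, abs_of_pos (by linarith)]
  have e3 : ‖(1 / (θ + π - (θ - π)) : ℝ)‖ = 1 / (2 * π) := by
    rw [show θ + π - (θ - π) = 2 * π by ring, Real.norm_eq_abs, abs_of_pos (by positivity)]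
  rw [e2] at h1
  rw [e3]
  calc 1 / (2 * π) * ‖∫ x in (θ - δ)..(θ + δ), F x‖ ≤ 1 / (2 * π) * (M * (2 * δ)) := by gcongr
    _ = M * δ / π := by field_simp

/-- one integration by parts -/
theorem Co_deriv {θ : ℝ} {v : ℝ → ℝ} (hv : Differentiable ℝ v) (hv' : Continuous (deriv v))
    (ha : v (θ - π) = 0) (hb : v (θ + π) = 0) {n : ℤ} (hn : n ≠ 0) :
    ‖Co θ v n‖ = ‖Co θ (deriv v) n‖ / |(n : ℝ)| := by
  have hpi := Real.pi_pos
  have hc : Continuous (fun x : ℝ => ((deriv v x : ℝ) : ℂ)) := continuous_ofReal.comp hv'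
  have hd : ∀ x ∈ uIcc (θ - π) (θ + π), HasDerivAt (fun t : ℝ => (v t : ℂ)) ((deriv v x : ℝ) : ℂ) x :=
    fun x _ => (hv x).hasDerivAt.ofReal_comp
  rw [Co, fourierCoeffOn_of_hasDerivAt (f' := fun t => ((deriv v t : ℝ) : ℂ)) (hab θ) hn hd
    (hc.intervalIntegrable _ _)]
  rw [ha, hb, sub_self, mul_zero, zero_sub, norm_mul, norm_neg, norm_mul, norm_div, norm_one,
    norm_mul, norm_mul, norm_mul, norm_neg, Complex.norm_I, mul_one, Complex.norm_real,
    Real.norm_eq_abs, abs_of_pos hpi]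
  have e1 : ‖((θ + π : ℝ) : ℂ) - ((θ - π : ℝ) : ℂ)‖ = 2 * π := by
    rw [← ofReal_sub, Complex.norm_real, show θ + π - (θ - π) = 2 * π by ring, Real.norm_eq_abs,
      abs_of_pos (by positivity)]
  have e2 : ‖(n : ℂ)‖ = |(n : ℝ)| := by
    rw [← Complex.ofReal_intCast, Complex.norm_real, Real.norm_eq_abs]
  have e3 : ‖(2 : ℂ)‖ = 2 := by norm_num
  have hn0 : 0 < |(n : ℝ)| := abs_pos.2 (by exact_mod_cast hn)
  rw [e1, e2, e3, ← Co]
  field_simp

/-- the two bounds -/
theorem Co_bounds {u : ℝ → ℝ} {θ δ A : ℝ} (hu : ContDiff ℝ 3 u) (hδ : 0 < δ) (hδ1 : δ ≤ 1)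
    (h0 : ∀ t, δ ≤ |t - θ| → u t = 0) (hA2 : ∀ t, |deriv (deriv u) t| ≤ A)
    (hA3 : ∀ t, |deriv (deriv (deriv u)) t| ≤ A / δ) {n : ℤ} (hn : n ≠ 0) :
    ‖Co θ u n‖ ≤ A * δ / π / |(n : ℝ)| ^ 2 ∧ ‖Co θ u n‖ ≤ A / π / |(n : ℝ)| ^ 3 := by
  have hpi := Real.pi_pos
  have hpi3 := Real.pi_gt_three
  have hu1 : ContDiff ℝ 2 (deriv u) := ContDiff.deriv' (n := 2) (by exact_mod_cast hu)
  have hu2 : ContDiff ℝ 1 (deriv (deriv u)) := ContDiff.deriv' (n := 1) (by exact_mod_cast hu1)
  have hu3 : Continuous (deriv (deriv (deriv u))) := hu2.continuous_deriv_one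
  have hd0 : Differentiable ℝ u := hu.differentiable (by norm_num)
  have hd1 : Differentiable ℝ (deriv u) := hu1.differentiable (by norm_num)
  have hd2 : Differentiable ℝ (deriv (deriv u)) := hu2.differentiable (by norm_num)
  have h1 := deriv_zero hd0 hδ h0
  have h2 := deriv_zero hd1 hδ h1
  have h3 := deriv_zero hd2 hδ h2
  have hl : δ ≤ |θ - π - θ| := by
    rw [show θ - π - θ = -π by ring, abs_neg, abs_of_pos hpi]; linarith
  have hr : δ ≤ |θ + π - θ| := by
    rw [show θ + π - θ = π by ring, abs_of_pos hpi]; linarith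
  have hn0 : 0 < |(n : ℝ)| := abs_pos.2 (by exact_mod_cast hn)
  have e1 := Co_deriv hd0 hu1.continuous (h0 _ hl) (h0 _ hr) hn
  have e2 := Co_deriv hd1 hu2.continuous (h1 _ hl) (h1 _ hr) hn
  have e3 := Co_deriv hd2 hu3 (h2 _ hl) (h2 _ hr) hn
  have b2 := Co_bound hu2.continuous hδ hδ1 h2 hA2 n
  have b3 := Co_bound hu3 hδ hδ1 h3 hA3 n
  constructor
  · rw [e1, e2, div_div, ← sq]
    gcongr
  · rw [e1, e2, e3, div_div, div_div]
    have e4 : A / δ * δ / π = A / π := by field_simp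
    rw [e4] at b3
    calc ‖Co θ (deriv (deriv (deriv u))) n‖ / (|(n : ℝ)| * (|(n : ℝ)| * |(n : ℝ)|))
        ≤ A / π / (|(n : ℝ)| * (|(n : ℝ)| * |(n : ℝ)|)) := by gcongr
      _ = A / π / |(n : ℝ)| ^ 3 := by ring

/-- pointwise convergence of the Fourier series -/
theorem hasSum_int {u : ℝ → ℝ} {θ δ A : ℝ} (hu : ContDiff ℝ 3 u) (hδ : 0 < δ) (hδ1 : δ ≤ 1)
    (h0 : ∀ t, δ ≤ |t - θ| → u t = 0) (hA2 : ∀ t, |deriv (deriv u) t| ≤ A)
    (hA3 : ∀ t, |deriv (deriv (deriv u)) t| ≤ A / δ) {t : ℝ} (ht : |t - θ| ≤ π) :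
    HasSum (fun n : ℤ => Co θ u n * exp (n * (t * I))) (u t) := by
  have hpi := Real.pi_pos
  have hpi3 := Real.pi_gt_three
  have : Fact (0 < θ + π - (θ - π)) := ⟨by linarith⟩
  have hl : δ ≤ |θ - π - θ| := by
    rw [show θ - π - θ = -π by ring, abs_neg, abs_of_pos hpi]; linarith
  have hr : δ ≤ |θ + π - θ| := by
    rw [show θ + π - θ = π by ring, abs_of_pos hpi]; linarith
  have hend : (fun t => (u t : ℂ)) (θ - π)
      = (fun t => (u t : ℂ)) (θ - π + (θ + π - (θ - π))) := by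
    simp only
    rw [show θ - π + (θ + π - (θ - π)) = θ + π by ring, h0 _ hl, h0 _ hr]
  have hcont : Continuous (AddCircle.liftIoc (θ + π - (θ - π)) (θ - π) (fun t => (u t : ℂ))) :=
    AddCircle.liftIoc_continuous hend (continuous_ofReal.comp hu.continuous).continuousOn
  let f : C(AddCircle (θ + π - (θ - π)), ℂ) := ⟨_, hcont⟩
  have hco : ∀ n, fourierCoeff f n = Co θ u n := fun n => rfl
  have hsum : Summable (fourierCoeff f) := by
    have h1 : Summable (fun n : ℤ => A * δ / π * (1 / (n : ℝ) ^ 2)) :=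
      (Real.summable_one_div_int_pow.2 (by norm_num : 1 < 2)).mul_left _
    refine h1.of_norm_bounded_eventually ?_
    filter_upwards [Filter.eventually_cofinite_ne (0 : ℤ)] with n hn
    rw [hco]
    refine (Co_bounds hu hδ hδ1 h0 hA2 hA3 hn).1.trans (le_of_eq ?_)
    rw [sq_abs]
    ring
  have h2 := has_pointwise_sum_fourier_series_of_summable hsum (t : AddCircle (θ + π - (θ - π)))
  rw [abs_le] at ht
  have hval : f (t : AddCircle (θ + π - (θ - π))) = (u t : ℂ) := by
    show AddCircle.liftIoc (θ + π - (θ - π)) (θ - π) (fun t => (u t : ℂ)) t = _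
    rcases eq_or_lt_of_le ht.1 with h3 | h3
    · rw [AddCircle.liftIoc_eq_liftIco hend, AddCircle.liftIco_coe_apply]
      constructor
      · linarith
      · linarith
    · rw [AddCircle.liftIoc_coe_apply]
      constructor
      · linarith
      · linarith [ht.2]
  rw [hval] at h2
  refine h2.congr_fun fun n => ?_
  rw [hco, smul_eq_mul, fourier_coe_apply]
  congr 2
  have e1 : ((θ + π - (θ - π) : ℝ) : ℂ) = 2 * π := by
    rw [show θ + π - (θ - π) = 2 * π by ring]; push_cast; ring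
  rw [e1]
  have : (π : ℂ) ≠ 0 := by exact_mod_cast hpi.ne'
  field_simp

/-- numerical sum -/
theorem num_sum {δ : ℝ} (hδ : 0 < δ) (hδ1 : δ ≤ 1) (n : ℕ) :
    ∑ k ∈ Finset.range n, min (δ / ((k : ℝ) + 1)) (1 / ((k : ℝ) + 1) ^ 2)
      ≤ 3 * δ * (1 + Real.log (1 / δ)) := by
  set N : ℕ := ⌈1 / δ⌉₊ with hN
  have h1δ : 1 ≤ 1 / δ := by rw [le_div_iff₀ hδ]; linarith
  have hNlo : 1 / δ ≤ N := Nat.le_ceil _
  have hNup : (N : ℝ) < 1 / δ + 1 := Nat.ceil_lt_add_one (by positivity)
  have hN1 : (1 : ℝ) ≤ N := h1δ.trans hNlo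
  have hN0 : N ≠ 0 := by
    intro h
    rw [h] at hN1
    norm_num at hN1
  have hlogN : Real.log N ≤ 1 + Real.log (1 / δ) := by
    have h1 : (N : ℝ) ≤ 2 * (1 / δ) := by linarith
    have h2 : Real.log N ≤ Real.log (2 * (1 / δ)) := Real.log_le_log (by linarith) h1
    rw [Real.log_mul (by norm_num) (by positivity)] at h2
    have := Real.log_two_lt_d9
    linarith
  have hL0 : 0 ≤ Real.log (1 / δ) := Real.log_nonneg h1δ
  have hpos : ∀ k : ℕ, 0 ≤ min (δ / ((k : ℝ) + 1)) (1 / ((k : ℝ) + 1) ^ 2) := fun k =>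
    le_min (by positivity) (by positivity)
  have hfirst : ∑ k ∈ Finset.range N, min (δ / ((k : ℝ) + 1)) (1 / ((k : ℝ) + 1) ^ 2)
      ≤ δ * (2 + Real.log (1 / δ)) := by
    calc ∑ k ∈ Finset.range N, min (δ / ((k : ℝ) + 1)) (1 / ((k : ℝ) + 1) ^ 2)
        ≤ ∑ k ∈ Finset.range N, δ / ((k : ℝ) + 1) :=
          Finset.sum_le_sum fun k _ => min_le_left _ _
      _ = δ * ((harmonic N : ℚ) : ℝ) := by
          rw [harmonic, Rat.cast_sum, Finset.mul_sum]
          refine Finset.sum_congr rfl fun k _ => ?_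
          push_cast
          rw [div_eq_mul_inv]
      _ ≤ δ * (1 + Real.log N) := by
          gcongr
          exact harmonic_le_one_add_log N
      _ ≤ δ * (2 + Real.log (1 / δ)) :=
          mul_le_mul_of_nonneg_left (by linarith) hδ.le
  rcases le_total n N with hn | hn
  · calc ∑ k ∈ Finset.range n, min (δ / ((k : ℝ) + 1)) (1 / ((k : ℝ) + 1) ^ 2)
        ≤ ∑ k ∈ Finset.range N, min (δ / ((k : ℝ) + 1)) (1 / ((k : ℝ) + 1) ^ 2) :=
          Finset.sum_le_sum_of_subset_of_nonneg (Finset.range_mono hn) (fun k _ _ => hpos k)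
      _ ≤ δ * (2 + Real.log (1 / δ)) := hfirst
      _ ≤ _ := by nlinarith
  · rw [← Finset.sum_range_add_sum_Ico _ hn]
    have h2 : ∑ k ∈ Finset.Ico N n, min (δ / ((k : ℝ) + 1)) (1 / ((k : ℝ) + 1) ^ 2) ≤ δ := by
      have h3 : ∀ m : ℕ, N ≤ m →
          ∑ k ∈ Finset.Ico N m, min (δ / ((k : ℝ) + 1)) (1 / ((k : ℝ) + 1) ^ 2)
            ≤ 1 / (N : ℝ) - 1 / (m : ℝ) := by
        intro m hm
        induction m, hm using Nat.le_induction with
        | base => simp
        | succ m hm ih =>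
          rw [Finset.sum_Ico_succ_top hm]
          have hm0 : (0 : ℝ) < m := by
            have : (N : ℝ) ≤ m := by exact_mod_cast hm
            linarith
          have h4 : min (δ / ((m : ℝ) + 1)) (1 / ((m : ℝ) + 1) ^ 2)
              ≤ 1 / (m : ℝ) - 1 / ((m + 1 : ℕ) : ℝ) := by
            refine (min_le_right _ _).trans ?_
            push_cast
            rw [div_sub_div _ _ hm0.ne' (by positivity), div_le_div_iff₀ (by positivity)
              (by positivity)]
            nlinarith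
          linarith
      have h5 := h3 n hn
      have h6 : 1 / (N : ℝ) ≤ δ := by
        rw [div_le_iff₀ (by linarith)]
        rw [div_le_iff₀ hδ] at hNlo
        linarith
      have h7 : 0 ≤ 1 / (n : ℝ) := by positivity
      linarith
    nlinarith

theorem hFou : StFou := by
  refine ⟨6, by norm_num, ?_⟩
  intro u θ δ A hu hδ hδ1 h0 hA2 hA3
  have hpi := Real.pi_pos
  have hpi3 := Real.pi_gt_three
  have hA0 : 0 ≤ A := (abs_nonneg _).trans (hA2 0)
  set c : ℕ → ℂ := fun k => Co θ u ((k : ℤ) + 1) + conj (Co θ u (-((k : ℤ) + 1))) with hc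
  have hcb : ∀ k : ℕ, ‖c k‖ ≤ 2 * (A * δ / π / ((k : ℝ) + 1) ^ 2) ∧
      ‖c k‖ ≤ 2 * (A / π / ((k : ℝ) + 1) ^ 3) := by
    intro k
    have hk1 : ((k : ℤ) + 1) ≠ 0 := by omega
    have hk2 : (-((k : ℤ) + 1)) ≠ 0 := by omega
    obtain ⟨a1, a2⟩ := Co_bounds hu hδ hδ1 h0 hA2 hA3 hk1
    obtain ⟨b1, b2⟩ := Co_bounds hu hδ hδ1 h0 hA2 hA3 hk2
    have e1 : |(((k : ℤ) + 1 : ℤ) : ℝ)| = (k : ℝ) + 1 := by
      push_cast
      exact abs_of_pos (by positivity)
    have e2 : |((-((k : ℤ) + 1) : ℤ) : ℝ)| = (k : ℝ) + 1 := by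
      push_cast
      rw [abs_of_neg (by have : (0 : ℝ) ≤ k := Nat.cast_nonneg k
                         linarith)]
      ring
    rw [e1] at a1 a2
    rw [e2] at b1 b2
    have h1 : ‖c k‖ ≤ ‖Co θ u ((k : ℤ) + 1)‖ + ‖Co θ u (-((k : ℤ) + 1))‖ := by
      rw [hc]
      simp only
      refine (norm_add_le _ _).trans ?_
      rw [Complex.norm_conj]
    constructor <;> linarith
  set b : ℕ → ℝ := fun k => 2 * (A * δ / π / ((k : ℝ) + 1) ^ 2) with hb
  have hbs : Summable b := by
    have h1 : Summable (fun k : ℕ => 1 / ((k : ℝ) + 1) ^ 2) := by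
      have h2 := (summable_nat_add_iff 1).2 (Real.summable_one_div_nat_pow.2 (by norm_num : 1 < 2))
      refine h2.congr fun k => ?_
      push_cast
      rfl
    refine (h1.mul_left (2 * (A * δ / π))).congr fun k => ?_
    rw [hb]
    simp only
    ring
  have hterm : ∀ (k : ℕ) (z : ℂ), ‖z‖ ≤ 1 → ‖c k * z ^ (k + 1)‖ ≤ b k := by
    intro k z hz
    rw [norm_mul, norm_pow]
    calc ‖c k‖ * ‖z‖ ^ (k + 1) ≤ ‖c k‖ * 1 := by
          gcongr
          exact pow_le_one₀ (norm_nonneg _) hz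
      _ ≤ b k := by rw [mul_one]; exact (hcb k).1
  set p : ℂ → ℂ := fun z => (((Co θ u 0).re : ℝ) : ℂ) + ∑' k : ℕ, c k * z ^ (k + 1) with hp
  have hd : DifferentiableOn ℂ (fun z : ℂ => ∑' k : ℕ, c k * z ^ (k + 1)) (ball 0 1) := by
    apply differentiableOn_tsum_of_summable_norm hbs
    · intro k; fun_prop
    · exact isOpen_ball
    · intro k z hz
      rw [mem_ball_zero_iff] at hz
      exact hterm k z hz.le
  refine ⟨p, ?_, ?_, ?_, ?_, ?_⟩
  · exact (differentiableOn_const _).add hd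
  · apply continuousOn_const.add
    apply continuousOn_tsum (u := b)
    · intro k; fun_prop
    · exact hbs
    · intro k z hz
      rw [mem_closedBall_zero_iff] at hz
      exact hterm k z hz
  · intro z hz
    have hz1 : ‖z‖ < 1 := by rwa [mem_ball_zero_iff] at hz
    have h1 : deriv p z = deriv (fun z : ℂ => ∑' k : ℕ, c k * z ^ (k + 1)) z := by
      rw [hp, deriv_const_add]
    have h2 := hasSum_deriv_of_summable_norm (F := fun (k : ℕ) (z : ℂ) => c k * z ^ (k + 1))
      hbs (fun k => by fun_prop) isOpen_ball (fun k w hw => by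
        rw [mem_ball_zero_iff] at hw
        exact hterm k w hw.le) hz
    rw [h1, ← h2.tsum_eq]
    have h3 : ∀ k : ℕ, ‖deriv (fun z : ℂ => c k * z ^ (k + 1)) z‖
        ≤ 2 * A / π * min (δ / ((k : ℝ) + 1)) (1 / ((k : ℝ) + 1) ^ 2) := by
      intro k
      have e1 : deriv (fun z : ℂ => c k * z ^ (k + 1)) z = c k * (((k + 1 : ℕ) : ℂ) * z ^ k) := by
        have := (hasDerivAt_pow (k + 1) z).const_mul (c k)
        exact this.deriv
      rw [e1, norm_mul, norm_mul, norm_pow, Complex.norm_natCast]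
      have hk0 : (0 : ℝ) < (k : ℝ) + 1 := by positivity
      have h4 : ‖z‖ ^ k ≤ 1 := pow_le_one₀ (norm_nonneg _) hz1.le
      have h5 : ‖c k‖ * (((k + 1 : ℕ) : ℝ) * ‖z‖ ^ k) ≤ ‖c k‖ * ((k : ℝ) + 1) := by
        push_cast
        gcongr
        nlinarith
      refine h5.trans ?_
      rw [mul_min_of_nonneg _ _ (by positivity)]
      apply le_min
      · calc ‖c k‖ * ((k : ℝ) + 1) ≤ 2 * (A * δ / π / ((k : ℝ) + 1) ^ 2) * ((k : ℝ) + 1) := by
              gcongr
              exact (hcb k).1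
          _ = 2 * A / π * (δ / ((k : ℝ) + 1)) := by field_simp
      · calc ‖c k‖ * ((k : ℝ) + 1) ≤ 2 * (A / π / ((k : ℝ) + 1) ^ 3) * ((k : ℝ) + 1) := by
              gcongr
              exact (hcb k).2
          _ = 2 * A / π * (1 / ((k : ℝ) + 1) ^ 2) := by field_simp
    have hpart : ∀ n : ℕ, ∑ k ∈ Finset.range n, ‖deriv (fun z : ℂ => c k * z ^ (k + 1)) z‖
        ≤ 6 * A * δ * (1 + Real.log (1 / δ)) := by
      intro n
      calc ∑ k ∈ Finset.range n, ‖deriv (fun z : ℂ => c k * z ^ (k + 1)) z‖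
          ≤ ∑ k ∈ Finset.range n, 2 * A / π * min (δ / ((k : ℝ) + 1)) (1 / ((k : ℝ) + 1) ^ 2) :=
            Finset.sum_le_sum fun k _ => h3 k
        _ = 2 * A / π * ∑ k ∈ Finset.range n, min (δ / ((k : ℝ) + 1)) (1 / ((k : ℝ) + 1) ^ 2) := by
            rw [Finset.mul_sum]
        _ ≤ 2 * A / π * (3 * δ * (1 + Real.log (1 / δ))) := by
            gcongr
            exact num_sum hδ hδ1 n
        _ ≤ 2 * A * (3 * δ * (1 + Real.log (1 / δ))) := by
            have hL : 0 ≤ Real.log (1 / δ) := Real.log_nonneg (by rw [le_div_iff₀ hδ]; linarith)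
            gcongr
            exact div_le_self (by positivity) (by linarith)
        _ = 6 * A * δ * (1 + Real.log (1 / δ)) := by ring
    have hsn : Summable (fun k : ℕ => ‖deriv (fun z : ℂ => c k * z ^ (k + 1)) z‖) :=
      summable_of_sum_range_le (fun _ => norm_nonneg _) hpart
    exact (norm_tsum_le_tsum_norm hsn).trans
      (Real.tsum_le_of_sum_range_le (fun _ => norm_nonneg _) hpart)
  · rw [hp]
    simp
  · intro t ht
    have h1 := hasSum_int hu hδ hδ1 h0 hA2 hA3 ht
    have h2 := h1.nat_add_neg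
    rw [← hasSum_nat_add_iff' 1] at h2
    simp only [Finset.range_one, Finset.sum_singleton, Nat.cast_zero, neg_zero, Int.cast_zero,
      zero_mul, Complex.exp_zero, mul_one] at h2
    have h3 := Complex.reCLM.hasSum h2
    simp only [Complex.reCLM_apply] at h3
    have h4 : Summable (fun k : ℕ => c k * exp (t * I) ^ (k + 1)) :=
      Summable.of_norm_bounded hbs (fun k => hterm k _ (by
        rw [Complex.norm_exp_ofReal_mul_I]))
    have h5 := Complex.reCLM.hasSum h4.hasSum
    simp only [Complex.reCLM_apply] at h5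
    have h6 : ∀ k : ℕ, (c k * exp (t * I) ^ (k + 1)).re
        = (Co θ u ((k + 1 : ℕ) : ℤ) * exp ((((k + 1 : ℕ) : ℤ) : ℂ) * (t * I))
          + Co θ u (-((k + 1 : ℕ) : ℤ)) * exp (((-((k + 1 : ℕ) : ℤ) : ℤ) : ℂ) * (t * I))).re := by
      intro k
      have e1 : exp (t * I) ^ (k + 1) = exp ((((k + 1 : ℕ) : ℤ) : ℂ) * (t * I)) := by
        rw [← Complex.exp_nat_mul]
        push_cast
        rfl
      have e2 : exp (((-((k + 1 : ℕ) : ℤ) : ℤ) : ℂ) * (t * I)) = conj (exp (t * I) ^ (k + 1)) := by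
        rw [e1, ← Complex.exp_conj]
        congr 1
        simp only [map_mul, Complex.conj_ofReal, Complex.conj_I]
        push_cast
        rw [map_add, map_one, Complex.conj_natCast]
        ring
      rw [e2, ← e1, hc]
      simp only [Nat.cast_add, Nat.cast_one]
      rw [add_mul, add_re, add_re]
      congr 1
      rw [mul_re, mul_re, conj_re, conj_im, conj_re, conj_im]
      ring
    have h7 : HasSum (fun k : ℕ => (c k * exp (t * I) ^ (k + 1)).re)
        ((u t : ℂ) + Co θ u 0 - (Co θ u 0 + Co θ u 0)).re := by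
      refine h3.congr_fun fun k => ?_
      exact h6 k
    have h8 := h5.unique h7
    rw [hp]
    simp only
    rw [add_re, ofReal_re, h8]
    simp only [sub_re, add_re, ofReal_re]
    ring

end Pool.Agent.Helper61.SR.Fou
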