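import Pool.Agent.Helper5.SR.St2

/-!
# Module TA of project SR: the touching map
-/

set_option autoImplicit false

namespace Pool.Agent.Helper61.SR

open Complex MeasureTheory Set Metric Filter Topology
open scoped Real ComplexConjugate
open Helper5.SR Pool.Agent.Helper51.LT

/-- Moebius map -/
noncomputable def Mb (b p : ℂ) : ℂ := (p - b) / (1 - conj b * p)

theorem den_lb (b p : ℂ) : 1 - ‖b‖ * ‖p‖ ≤ ‖1 - conj b * p‖ := by
  have h1 : ‖conj b * p‖ = ‖b‖ * ‖p‖ := by rw [norm_mul, Complex.norm_conj]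
  have h2 : ‖(1 : ℂ)‖ - ‖conj b * p‖ ≤ ‖1 - conj b * p‖ := norm_sub_norm_le _ _
  rw [norm_one, h1] at h2
  exact h2

theorem den_ub (b p : ℂ) : ‖1 - conj b * p‖ ≤ 1 + ‖b‖ * ‖p‖ := by
  have h1 : ‖conj b * p‖ = ‖b‖ * ‖p‖ := by rw [norm_mul, Complex.norm_conj]
  have h2 : ‖1 - conj b * p‖ ≤ ‖(1 : ℂ)‖ + ‖conj b * p‖ := norm_sub_le _ _
  rw [norm_one, h1] at h2
  exact h2

theorem den_ne {b p : ℂ} (h : ‖b‖ * ‖p‖ < 1) : 1 - conj b * p ≠ 0 := by
  intro h0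
  have := den_lb b p
  rw [h0, norm_zero] at this
  linarith

theorem mob_id (b p : ℂ) :
    ‖1 - conj b * p‖ ^ 2 - ‖p - b‖ ^ 2 = (1 - ‖p‖ ^ 2) * (1 - ‖b‖ ^ 2) := by
  rw [Complex.sq_norm, Complex.sq_norm, Complex.sq_norm, Complex.sq_norm]
  simp only [Complex.normSq_apply, sub_re, sub_im, mul_re, mul_im, one_re, one_im, conj_re, conj_im]
  ring

theorem mob_le {b p : ℂ} (hb : ‖b‖ < 1) (hp : ‖p‖ ≤ 1) : ‖Mb b p‖ ≤ 1 := by
  have hb0 := norm_nonneg b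
  have hp0 := norm_nonneg p
  have h1 : ‖b‖ * ‖p‖ < 1 := by nlinarith
  have h2 := den_lb b p
  rw [Mb, norm_div, div_le_one (by linarith)]
  have h3 := mob_id b p
  have h4 : 0 ≤ (1 - ‖p‖ ^ 2) * (1 - ‖b‖ ^ 2) := mul_nonneg (by nlinarith) (by nlinarith)
  exact le_of_sq_le_sq (by linarith) (norm_nonneg _)

theorem mob_eq {b p : ℂ} (hb : ‖b‖ < 1) (hp : ‖p‖ = 1) : ‖Mb b p‖ = 1 := by
  have hb0 := norm_nonneg b
  have h1 : ‖b‖ * ‖p‖ < 1 := by rw [hp]; linarith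
  have h2 := den_lb b p
  have h3 := mob_id b p
  rw [hp] at h3
  have h4 : ‖1 - conj b * p‖ ^ 2 = ‖p - b‖ ^ 2 := by linarith
  have h5 : ‖1 - conj b * p‖ = ‖p - b‖ := by
    have := congrArg Real.sqrt h4
    rwa [Real.sqrt_sq (norm_nonneg _), Real.sqrt_sq (norm_nonneg _)] at this
  rw [Mb, norm_div, ← h5, div_self]
  linarith

theorem mob_bd {b p : ℂ} (h : ‖b‖ * ‖p‖ < 1) :
    ‖Mb b p‖ ≤ (‖p‖ + ‖b‖) / (1 - ‖b‖ * ‖p‖) := by
  rw [Mb, norm_div]
  have h2 := den_lb b p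
  have h3 : ‖p - b‖ ≤ ‖p‖ + ‖b‖ := norm_sub_le _ _
  have h0 : 0 < 1 - ‖b‖ * ‖p‖ := by linarith
  gcongr

theorem mob_inj {b p q : ℂ} (hb : ‖b‖ < 1) (hp : ‖b‖ * ‖p‖ < 1) (hq : ‖b‖ * ‖q‖ < 1)
    (h : Mb b p = Mb b q) : p = q := by
  have h1 := den_ne hp
  have h2 := den_ne hq
  rw [Mb, Mb, div_eq_div_iff h1 h2] at h
  have h3 : (p - q) * (1 - conj b * b) = 0 := by linear_combination h
  rcases mul_eq_zero.1 h3 with h4 | h4
  · exact sub_eq_zero.1 h4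
  · exfalso
    have h5 : ‖b‖ * ‖b‖ < 1 := by have := norm_nonneg b; nlinarith
    exact den_ne h5 h4

theorem mob_deriv {b p : ℂ} (h : ‖b‖ * ‖p‖ < 1) :
    HasDerivAt (Mb b) ((1 - conj b * b) / (1 - conj b * p) ^ 2) p := by
  have h1 := den_ne h
  have h2 : HasDerivAt (fun p : ℂ => p - b) 1 p := (hasDerivAt_id p).sub_const b
  have h3 : HasDerivAt (fun p : ℂ => 1 - conj b * p) (-(conj b * 1)) p :=
    ((hasDerivAt_id p).const_mul (conj b)).const_sub 1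
  have h4 := h2.div h3 h1
  exact h4.congr_deriv (by ring)

theorem norm_conj_mul_self (b : ℂ) : ‖1 - conj b * b‖ = |1 - ‖b‖ ^ 2| := by
  have : 1 - conj b * b = ((1 - ‖b‖ ^ 2 : ℝ) : ℂ) := by
    rw [mul_comm, Complex.mul_conj, Complex.normSq_eq_norm_sq]
    push_cast; ring
  rw [this, Complex.norm_real, Real.norm_eq_abs]

theorem hTa (hKoe : StKoe) (hD2 : StD2) (hZf : StZf) (hXXI : StXXI) : StTa := by
  intro h hBU hh0 ha2
  obtain ⟨Z, hZd, hZ1, hZx, hZs, hZinv⟩ := hZf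
  obtain ⟨hX1, _, _⟩ := hXXI
  obtain ⟨hUn, hbd⟩ := hBU
  have hmaps : MapsTo h (ball 0 1) (closedBall (h 0) 1) := by
    intro z hz
    rw [hh0, mem_closedBall_zero_iff]
    exact hbd z hz
  set a : ℂ := deriv h 0 with ha
  have ha1 : ‖a‖ ≤ 1 := norm_deriv_le_one_of_mapsTo_ball hUn.1 hmaps one_pos
  have ha0 : a ≠ 0 := by
    intro h0
    rw [h0, norm_zero] at ha2
    norm_num at ha2
  have hA0 : 0 < ‖a‖ := by linarith
  have hAc : (‖a‖ : ℂ) ≠ 0 := by exact_mod_cast hA0.ne'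
  -- Koebe at zero
  have hk : ∀ z ∈ ball (0 : ℂ) 1, ‖a‖ * ‖z‖ ≤ 4 * ‖h z‖ := by
    intro z hz
    have h1 := hKoe h (ball 0 1) 0 1 one_pos le_rfl isOpen_ball hUn z hz
    rw [hh0, sub_zero, sub_zero, min_eq_left (by rw [mem_ball_zero_iff] at hz; exact hz.le)] at h1
    exact h1
  have hsch : ∀ z ∈ ball (0 : ℂ) 1, ‖h z‖ ≤ ‖z‖ := by
    intro z hz
    have hz1 : ‖z‖ < 1 := by rwa [mem_ball_zero_iff] at hz
    refine norm_le_norm_of_mapsTo_ball hUn.1 ?_ hh0 hz1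
    rw [hh0] at hmaps
    exact hmaps
  -- second order Schwarz
  have hu : ∀ z ∈ ball (0 : ℂ) 1, ‖h z / a - z‖ ≤ 3 * ‖z‖ ^ 2 := by
    intro z hz
    have hud : DifferentiableOn ℂ (fun z => h z / a - z) (ball 0 1) :=
      (hUn.1.div_const a).sub differentiableOn_id
    have hu0 : (fun z => h z / a - z) 0 = 0 := by simp [hh0]
    have humaps : MapsTo (fun z => h z / a - z) (ball 0 1)
        (closedBall ((fun z => h z / a - z) 0) 3) := by
      intro w hw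
      rw [hu0, mem_closedBall_zero_iff]
      have h1 : ‖h w / a‖ ≤ 2 := by
        rw [norm_div, div_le_iff₀ hA0]
        have := hbd w hw
        linarith
      have h2 : ‖w‖ < 1 := by rwa [mem_ball_zero_iff] at hw
      calc ‖h w / a - w‖ ≤ ‖h w / a‖ + ‖w‖ := norm_sub_le _ _
        _ ≤ 3 := by linarith
    have hder : HasDerivAt (fun z => h z / a - z) 0 0 := by
      have h1 : HasDerivAt h a 0 :=
        (hUn.1.differentiableAt (isOpen_ball.mem_nhds (by simp))).hasDerivAt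
      have h2 := (h1.div_const a).sub (hasDerivAt_id (0 : ℂ))
      rw [div_self ha0, sub_self] at h2
      exact h2
    have hlo : (fun w => (fun z => h z / a - z) w - (fun z => h z / a - z) 0)
        =o[𝓝 (0 : ℂ)] (fun w => ‖w - 0‖ ^ 1) := by
      have h1 := hasDerivAt_iff_isLittleO.1 hder
      simp only [smul_zero, sub_zero] at h1
      simp only [sub_zero, pow_one]
      exact h1.norm_right
    have h3 := dist_le_mul_div_pow_of_mapsTo_ball_of_isLittleO (n := 1) hud humaps hlo hz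
    simp only [hh0, zero_div, sub_zero, dist_zero_right, div_one] at h3
    exact h3
  -- the constant `c`
  set c : ℂ := -(((1 / 1000 / ‖a‖ : ℝ) : ℂ) * a) with hc
  have hcn : ‖c‖ = 1 / 1000 := by
    rw [hc, norm_neg, norm_mul, Complex.norm_real, Real.norm_eq_abs, abs_of_pos (by positivity)]
    field_simp
  have hkey : ∀ z ∈ ball (0 : ℂ) 1, 0 ≤ z.re →
      (1 / 1000 : ℝ) ^ 2 + ‖z‖ ^ 2 / 100 ≤ ‖h z - c‖ ^ 2 := by
    intro z hz hzre
    set w : ℂ := h z / a with hw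
    have e1 : h z - c = a * (w + ((1 / 1000 / ‖a‖ : ℝ) : ℂ)) := by
      rw [hc, hw]; field_simp; ring
    have e2 : ‖w + ((1 / 1000 / ‖a‖ : ℝ) : ℂ)‖ ^ 2
        = ‖w‖ ^ 2 + 2 * (1 / 1000 / ‖a‖) * w.re + (1 / 1000 / ‖a‖) ^ 2 := by
      rw [Complex.sq_norm, Complex.sq_norm]
      simp only [Complex.normSq_apply, add_re, add_im, ofReal_re, ofReal_im]
      ring
    have e3 : ‖h z - c‖ ^ 2 = ‖a‖ ^ 2 * ‖w‖ ^ 2 + 2 * (1 / 1000) * ‖a‖ * w.re
        + (1 / 1000) ^ 2 := by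
      rw [e1, norm_mul, mul_pow, e2]
      field_simp
    have h1 : ‖z‖ / 4 ≤ ‖w‖ := by
      rw [hw, norm_div, le_div_iff₀ hA0]
      have := hk z hz
      linarith
    have h2 : -(3 * ‖z‖ ^ 2) ≤ w.re := by
      have h3 := hu z hz
      have h4 := (abs_le.1 (Complex.abs_re_le_norm (h z / a - z))).1
      rw [sub_re, ← hw] at h4
      linarith
    have hz0 := norm_nonneg z
    have h3 : (‖z‖ / 4) ^ 2 ≤ ‖w‖ ^ 2 := pow_le_pow_left₀ (by positivity) h1 2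
    have h4 : ‖a‖ ^ 2 * (‖z‖ / 4) ^ 2 ≤ ‖a‖ ^ 2 * ‖w‖ ^ 2 := by gcongr
    have h5 : 2 * (1 / 1000) * ‖a‖ * -(3 * ‖z‖ ^ 2) ≤ 2 * (1 / 1000) * ‖a‖ * w.re := by
      apply mul_le_mul_of_nonneg_left h2 (by positivity)
    have h6 : 0 ≤ ‖a‖ ^ 2 / 16 - 6 / 1000 * ‖a‖ - 1 / 100 := by nlinarith
    have h7 := mul_nonneg h6 (sq_nonneg ‖z‖)
    rw [e3]
    nlinarith
  have hcb : ∀ z ∈ ball (0 : ℂ) 1, ‖h z - c‖ ≤ 1001 / 1000 := by
    intro z hz
    calc ‖h z - c‖ ≤ ‖h z‖ + ‖c‖ := norm_sub_le _ _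
      _ ≤ 1001 / 1000 := by rw [hcn]; have := hbd z hz; linarith
  -- the map `ψ₁`
  set S : Set ℂ := ball 0 1 ∪ ball 1 (1 / 2000) with hS
  have hSo : IsOpen S := isOpen_ball.union isOpen_ball
  have hZS : ∀ x ∈ S, Z x ∈ ball (0 : ℂ) 1 := by
    rintro x (hx | hx)
    · rw [mem_ball_zero_iff]; exact (hZx x hx).1
    · rw [mem_ball_zero_iff]
      have := hZs x hx
      linarith
  have hD1 : ∀ x ∈ ball (0 : ℂ) 1, 1 / 1000 < ‖h (Z x) - c‖ := by
    intro x hx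
    obtain ⟨z1, z2, _⟩ := hZx x hx
    have h1 := hkey (Z x) (by rw [mem_ball_zero_iff]; exact z1) z2.le
    have h2 : 0 < ‖Z x‖ := by
      rw [norm_pos_iff]
      intro h0
      rw [h0] at z2
      simp at z2
    have h3 : (1 / 1000 : ℝ) ^ 2 < ‖h (Z x) - c‖ ^ 2 := by
      have : 0 < ‖Z x‖ ^ 2 := by positivity
      linarith
    exact lt_of_pow_lt_pow_left₀ 2 (norm_nonneg _) h3
  have hD2' : ∀ x ∈ ball (1 : ℂ) (1 / 2000), 1 / 2000 ≤ ‖h (Z x) - c‖ := by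
    intro x hx
    have h1 := hsch (Z x) (hZS x (Or.inr hx))
    have h2 := hZs x hx
    have h3 : ‖c‖ - ‖h (Z x)‖ ≤ ‖c - h (Z x)‖ := norm_sub_norm_le _ _
    rw [norm_sub_rev] at h3
    linarith
  have hDne : ∀ x ∈ S, h (Z x) - c ≠ 0 := by
    rintro x (hx | hx) h0
    · have := hD1 x hx
      rw [h0, norm_zero] at this
      norm_num at this
    · have := hD2' x hx
      rw [h0, norm_zero] at this
      norm_num at this
  set ψ₁ : ℂ → ℂ := fun x => (1 / 1000 : ℂ) / (h (Z x) - c) with hψ₁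
  have hψ₁d : DifferentiableOn ℂ ψ₁ S := by
    apply DifferentiableOn.div (differentiableOn_const _) _ hDne
    exact (hUn.1.comp hZd hZS).sub_const c
  have hn1000 : ‖(1 / 1000 : ℂ)‖ = 1 / 1000 := by
    rw [norm_div, norm_one]
    norm_num
  have hψ₁n : ∀ x, ‖ψ₁ x‖ = 1 / 1000 / ‖h (Z x) - c‖ := by
    intro x
    rw [hψ₁]
    simp only
    rw [norm_div, hn1000]
  have hψ₁lt : ∀ x ∈ ball (0 : ℂ) 1, ‖ψ₁ x‖ < 1 := by
    intro x hx
    have := hD1 x hx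
    rw [hψ₁n, div_lt_one (by linarith)]
    exact this
  have hψ₁le : ∀ x ∈ ball (1 : ℂ) (1 / 2000), ‖ψ₁ x‖ ≤ 2 := by
    intro x hx
    have := hD2' x hx
    rw [hψ₁n, div_le_iff₀ (by linarith)]
    linarith
  have hψ₁1 : ‖ψ₁ 1‖ = 1 := by
    rw [hψ₁n, hZ1, hh0, zero_sub, norm_neg, hcn]
    norm_num
  -- the value at zero
  have h0b : (0 : ℂ) ∈ ball (0 : ℂ) 1 := by simp
  obtain ⟨z01, z02, z03⟩ := hZx 0 h0b
  have hz0b : Z 0 ∈ ball (0 : ℂ) 1 := by rw [mem_ball_zero_iff]; exact z01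
  have hquad : Z 0 * (Z 0 + 2) = 1 := by
    have h1 : 1 ≤ ‖1 + 2 * Z 0 - Z 0 ^ 2‖ := (hX1 (Z 0) hz0b z02.le).2.2.1
    have h2 : 1 + 2 * Z 0 - Z 0 ^ 2 ≠ 0 := by
      intro h0
      rw [h0, norm_zero] at h1
      norm_num at h1
    rw [XX, div_eq_zero_iff] at z03
    rcases z03 with h3 | h3
    · linear_combination -h3
    · exact absurd h3 h2
  have hquadn : ‖Z 0‖ * ‖Z 0 + 2‖ = 1 := by rw [← norm_mul, hquad, norm_one]
  have hz0lo : 1 / 3 < ‖Z 0‖ := by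
    have h1 : ‖Z 0 + 2‖ < 3 := by
      calc ‖Z 0 + 2‖ ≤ ‖Z 0‖ + ‖(2 : ℂ)‖ := norm_add_le _ _
        _ < 3 := by
          have : ‖(2 : ℂ)‖ = 2 := by norm_num
          rw [this]; linarith
    have h2 := norm_nonneg (Z 0)
    have h3 : 0 < ‖Z 0‖ := by
      by_contra hcon
      have : ‖Z 0‖ = 0 := le_antisymm (not_lt.1 hcon) h2
      rw [this, zero_mul] at hquadn
      norm_num at hquadn
    nlinarith
  have hz0up : ‖Z 0‖ < 1 / 2 := by
    have h1 : 2 < ‖Z 0 + 2‖ := by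
      have h2 : (Z 0 + 2).re ≤ ‖Z 0 + 2‖ := Complex.re_le_norm _
      have h3 : (Z 0 + 2).re = (Z 0).re + 2 := by simp
      linarith
    nlinarith
  set b : ℂ := ψ₁ 0 with hb
  have hb40 : ‖b‖ ≤ 1 / 40 := by
    rw [hb, hψ₁n]
    have h1 := hk (Z 0) hz0b
    have h2 : 1 / 24 ≤ ‖h (Z 0)‖ := by nlinarith
    have h3 : ‖h (Z 0)‖ - ‖c‖ ≤ ‖h (Z 0) - c‖ := norm_sub_norm_le _ _
    rw [hcn] at h3
    rw [div_le_iff₀ (by linarith)]
    linarith
  have hb0 := norm_nonneg b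
  have hb1 : ‖b‖ < 1 := by linarith
  have hbp : ∀ x ∈ S, ‖b‖ * ‖ψ₁ x‖ ≤ 1 / 20 := by
    rintro x (hx | hx)
    · have := hψ₁lt x hx
      have h0 := norm_nonneg (ψ₁ x)
      nlinarith
    · have := hψ₁le x hx
      have h0 := norm_nonneg (ψ₁ x)
      nlinarith
  have hbp' : ∀ x ∈ S, ‖b‖ * ‖ψ₁ x‖ < 1 := fun x hx => by linarith [hbp x hx]
  set c0 : ℂ := Mb b (ψ₁ 1) with hc0
  have hc0n : ‖c0‖ = 1 := mob_eq hb1 hψ₁1
  have hc00 : c0 ≠ 0 := by
    intro h0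
    rw [h0, norm_zero] at hc0n
    norm_num at hc0n
  set ψ : ℂ → ℂ := fun x => Mb b (ψ₁ x) / c0 with hψ
  have hψn : ∀ x, ‖ψ x‖ = ‖Mb b (ψ₁ x)‖ := by
    intro x
    rw [hψ]
    simp only
    rw [norm_div, hc0n, div_one]
  have hψd : DifferentiableOn ℂ ψ S := by
    intro x hx
    have h1 := (mob_deriv (hbp' x hx)).differentiableAt
    exact (h1.comp_differentiableWithinAt x (hψ₁d x hx)).div_const c0
  have hψ0 : ψ 0 = 0 := by
    rw [hψ]
    simp only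
    rw [← hb, Mb, sub_self, zero_div, zero_div]
  have hψ1 : ψ 1 = 1 := by
    rw [hψ]
    simp only
    rw [← hc0, div_self hc00]
  have hψinj : InjOn ψ (ball 0 1) := by
    intro x hx y hy hxy
    have h1 : Mb b (ψ₁ x) = Mb b (ψ₁ y) := by
      have h2 : Mb b (ψ₁ x) / c0 = Mb b (ψ₁ y) / c0 := hxy
      rw [div_left_inj' hc00] at h2
      exact h2
    have h2 := mob_inj hb1 (hbp' x (Or.inl hx)) (hbp' y (Or.inl hy)) h1
    have h3 : (1 / 1000 : ℂ) / (h (Z x) - c) = (1 / 1000 : ℂ) / (h (Z y) - c) := h2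
    rw [div_eq_div_iff (hDne x (Or.inl hx)) (hDne y (Or.inl hy))] at h3
    have h4 : h (Z x) = h (Z y) := by
      have h5 : (1 / 1000 : ℂ) * (h (Z y) - h (Z x)) = 0 := by linear_combination h3
      rcases mul_eq_zero.1 h5 with h6 | h6
      · norm_num at h6
      · exact (sub_eq_zero.1 h6).symm
    have h5 := hUn.2 (hZS x (Or.inl hx)) (hZS y (Or.inl hy)) h4
    rw [← (hZx x hx).2.2, ← (hZx y hy).2.2, h5]
  have hψBU : BU ψ := by
    refine ⟨⟨hψd.mono subset_union_left, hψinj⟩, ?_⟩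
    intro z hz
    rw [hψn]
    exact mob_le hb1 (hψ₁lt z hz).le
  -- the derivative
  have hder : ∀ x ∈ ball (0 : ℂ) 1, ‖deriv h (Z x)‖ ≤ 10 ^ 4 * ‖deriv ψ x‖ := by
    intro x hx
    obtain ⟨z1, z2, z3⟩ := hZx x hx
    have hxS : x ∈ S := Or.inl hx
    have hzb := hZS x hxS
    have hdZ : HasDerivAt Z (deriv Z x) x :=
      (hZd.differentiableAt (hSo.mem_nhds hxS)).hasDerivAt
    have hdh : HasDerivAt h (deriv h (Z x)) (Z x) :=
      (hUn.1.differentiableAt (isOpen_ball.mem_nhds hzb)).hasDerivAt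
    obtain ⟨hdX, hdX8, _⟩ := hX1 (Z x) hzb z2.le
    have hXZ : deriv XX (Z x) * deriv Z x = 1 := by
      have h1 : HasDerivAt (fun y => XX (Z y)) (deriv XX (Z x) * deriv Z x) x :=
        hdX.differentiableAt.hasDerivAt.comp x hdZ
      have h2 : (fun y => XX (Z y)) =ᶠ[𝓝 x] fun y => y := by
        filter_upwards [isOpen_ball.mem_nhds hx] with y hy
        exact (hZx y hy).2.2
      have h3 : HasDerivAt (fun y => XX (Z y)) 1 x :=
        (hasDerivAt_id x).congr_of_eventuallyEq h2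
      exact h1.unique h3
    have hZ8 : 1 ≤ 8 * ‖deriv Z x‖ := by
      have h1 : ‖deriv XX (Z x)‖ * ‖deriv Z x‖ = 1 := by rw [← norm_mul, hXZ, norm_one]
      have h2 := norm_nonneg (deriv Z x)
      nlinarith
    have hd1 : HasDerivAt ψ₁ (-((1 / 1000 : ℂ) * (deriv h (Z x) * deriv Z x))
        / (h (Z x) - c) ^ 2) x := by
      have h1 : HasDerivAt (fun y => h (Z y) - c) (deriv h (Z x) * deriv Z x) x :=
        (hdh.comp x hdZ).sub_const c
      have h2 := (hasDerivAt_const x (1 / 1000 : ℂ)).div h1 (hDne x hxS)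
      exact h2.congr_deriv (by ring)
    have hd2 := ((mob_deriv (hbp' x hxS)).comp x hd1).div_const c0
    have hd3 : deriv ψ x = (1 - conj b * b) / (1 - conj b * ψ₁ x) ^ 2
        * (-((1 / 1000 : ℂ) * (deriv h (Z x) * deriv Z x)) / (h (Z x) - c) ^ 2) / c0 :=
      hd2.deriv
    rw [hd3, norm_div, hc0n, div_one, norm_mul, norm_div, norm_div, norm_neg, norm_mul, norm_mul,
      norm_pow, norm_pow, norm_conj_mul_self, hn1000]
    set H := ‖deriv h (Z x)‖ with hH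
    have hH0 : 0 ≤ H := norm_nonneg _
    set D := ‖h (Z x) - c‖ with hDdef
    have hDlo : 1 / 1000 < D := hD1 x hx
    have hDup : D ≤ 1001 / 1000 := hcb (Z x) hzb
    set Q := ‖1 - conj b * ψ₁ x‖ with hQ
    have hQlo : 0 < Q := norm_pos_iff.2 (den_ne (hbp' x hxS))
    have hQup : Q ≤ 41 / 40 := by
      have h1 := den_ub b (ψ₁ x)
      have h2 := hψ₁lt x hx
      have h3 := norm_nonneg (ψ₁ x)
      have h4 : ‖b‖ * ‖ψ₁ x‖ ≤ 1 / 40 := by nlinarith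
      linarith
    set B := |1 - ‖b‖ ^ 2| with hB
    have hBlo : 1599 / 1600 ≤ B := by
      have h1 : ‖b‖ ^ 2 ≤ 1 / 1600 := by nlinarith
      rw [hB, abs_of_nonneg (by linarith)]
      linarith
    set W := ‖deriv Z x‖ with hW
    have h1 : 9 / 10 ≤ B / Q ^ 2 := by
      rw [le_div_iff₀ (by positivity)]
      nlinarith
    have h2 : 1 / 1000 * (H * W) / D ^ 2 ≥ 1 / 1000 * (H * (1 / 8)) / (101 / 100) := by
      have h3 : D ^ 2 ≤ 101 / 100 := by nlinarith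
      have h4 : 1 / 8 ≤ W := by linarith
      have h5 : 0 < D ^ 2 := by positivity
      gcongr
    have h3 : (9 / 10) * (1 / 1000 * (H * (1 / 8)) / (101 / 100))
        ≤ B / Q ^ 2 * (1 / 1000 * (H * W) / D ^ 2) := by
      apply mul_le_mul h1 h2 (by positivity) (by positivity)
    calc H ≤ 10 ^ 4 * ((9 / 10) * (1 / 1000 * (H * (1 / 8)) / (101 / 100))) := by
          nlinarith
      _ ≤ _ := by gcongr
  refine ⟨ψ, hψBU, hψ0, hψ1, hψd, ?_, ?_, ?_, ?_⟩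
  · intro x hx
    rw [hψn]
    refine (mob_bd (hbp' x (Or.inr hx))).trans ?_
    have h1 := hψ₁le x hx
    have h2 := hbp x (Or.inr hx)
    rw [div_le_iff₀ (by linarith)]
    linarith
  · intro x hx
    have h1 := hKoe ψ (ball 0 1) 0 1 one_pos le_rfl isOpen_ball hψBU.1 x hx
    rw [hψ0, sub_zero, sub_zero, min_eq_left (by rw [mem_ball_zero_iff] at hx; exact hx.le)] at h1
    have h2 := hder 0 h0b
    have h3 := (hD2 h 1 (Z 0) 0 one_pos hUn z01 le_rfl zero_le_one).1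
    simp only [ofReal_zero, zero_mul, sub_zero, one_pow, one_mul] at h3
    rw [← ha] at h3
    have h4 : (1 / 2 : ℝ) ^ 4 ≤ (1 - ‖Z 0‖) ^ 4 := pow_le_pow_left₀ (by norm_num) (by linarith) 4
    have h5 : (1 / 2 : ℝ) ^ 4 * (1 / 2) ≤ (1 - ‖Z 0‖) ^ 4 * ‖a‖ :=
      mul_le_mul h4 ha2 (by norm_num) (by positivity)
    have h6 : 1 / 320000 ≤ ‖deriv ψ 0‖ := by
      norm_num at h2 h5 ⊢
      linarith
    have h7 : 1 / 320000 * ‖x‖ ≤ ‖deriv ψ 0‖ * ‖x‖ :=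
      mul_le_mul_of_nonneg_right h6 (norm_nonneg _)
    have h8 := norm_nonneg (ψ x)
    norm_num
    linarith
  · intro x hx hre
    obtain ⟨z1, z2, z3⟩ := hZx x hx
    have hzb := hZS x (Or.inl hx)
    have hz : 1 / 2 < ‖Z x‖ := by
      by_contra hcon
      have h1 := (hX1 (Z x) hzb z2.le).2.2.2.2.2 (not_lt.1 hcon)
      rw [z3] at h1
      linarith
    have h1 := hk (Z x) hzb
    have h2 : 1 / 16 ≤ ‖h (Z x)‖ := by nlinarith
    have h3 : ‖h (Z x)‖ - ‖c‖ ≤ ‖h (Z x) - c‖ := norm_sub_norm_le _ _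
    rw [hcn] at h3
    have h4 : ‖ψ₁ x‖ ≤ 1 / 60 := by
      rw [hψ₁n, div_le_iff₀ (by linarith)]
      linarith
    rw [hψn]
    refine (mob_bd (hbp' x (Or.inl hx))).trans ?_
    have h5 := hbp x (Or.inl hx)
    rw [div_le_iff₀ (by linarith)]
    linarith
  · intro z hz hzre
    obtain ⟨h1, h2⟩ := hZinv z hz hzre
    refine ⟨h1, ?_⟩
    have h3 := hder (XX z) h1
    rw [h2] at h3
    have h4 := norm_nonneg (deriv ψ (XX z))
    norm_num at h3 ⊢
    linarith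

end Pool.Agent.Helper61.SR
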